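import Pool.Agent.H958R2.NLT.Gadget

/-!
# The core of the reduction: class preserving realisations encode exactly-one-in-three
-/

namespace Pool.Agent.H958R2

/-- The vertices of the core: three for each variable, seven (the hub) for each clause, and
`21` (a cover) for each position in a clause. -/
abbrev Core (N m : ℕ) : Type :=
  (Fin N × Fin 3) ⊕ ((Fin m × Fin 7) ⊕ (Fin m × Fin 3 × Fin 7 × Fin 3))

variable {N m : ℕ}

/-- The class of a vertex of the core. -/
def kcore : Core N m → ℕ
  | Sum.inl (x, _) => 7 * x.1 + 2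
  | Sum.inr (Sum.inl (c, _)) => 7 * c.1 + 3
  | Sum.inr (Sum.inr (c, i, _, _)) => 7 * c.1 + 4 + i.1

/-- The lists of the core. -/
def gcore (lit : Fin m → Fin 3 → Bool × Fin N) : Core N m → Core N m → Bool
  | Sum.inl (x, a), Sum.inl (y, b) => if x = y then decide (a = b) else decide (x < y)
  | Sum.inl (x, _), Sum.inr (Sum.inl (c, _)) => decide (7 * x.1 + 2 < 7 * c.1 + 3)
  | Sum.inl (x, a), Sum.inr (Sum.inr (c, i, _, f)) =>
      if (lit c i).2 = x then decide (a = f) else decide (7 * x.1 + 2 < 7 * c.1 + 4 + i.1)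
  | Sum.inr (Sum.inl (c, _)), Sum.inl (x, _) => decide (7 * c.1 + 3 < 7 * x.1 + 2)
  | Sum.inr (Sum.inl (c, p)), Sum.inr (Sum.inl (d, q)) =>
      if c = d then fA q p else decide (c < d)
  | Sum.inr (Sum.inl (c, p)), Sum.inr (Sum.inr (d, i, q, _)) =>
      if c = d then decide (p = q) else decide (7 * c.1 + 3 < 7 * d.1 + 4 + i.1)
  | Sum.inr (Sum.inr (c, i, _, f)), Sum.inl (x, a) =>
      if (lit c i).2 = x then !decide (a = f + 1) else decide (7 * c.1 + 4 + i.1 < 7 * x.1 + 2)
  | Sum.inr (Sum.inr (c, i, p, _)), Sum.inr (Sum.inl (d, q)) =>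
      if c = d then !decide (q = p) else decide (7 * c.1 + 4 + i.1 < 7 * d.1 + 3)
  | Sum.inr (Sum.inr (c, i, p, f)), Sum.inr (Sum.inr (d, j, q, g)) =>
      if c = d ∧ i = j then fE (lit c i).1 i p f q g
      else decide (7 * c.1 + 4 + i.1 < 7 * d.1 + 4 + j.1)

theorem F_varcov : ∀ (α : Bool) (a f : Fin 3), decide (a + (if α then 1 else 2) = f) ≠
    !decide (a = f + (if α then 1 else 0) + 1) := by decide

theorem ft_eq (α b : Bool) (i e : Fin 3) (h : (α == b) = decide (i = e)) :
    ft b i e = if α then 1 else 0 := by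
  unfold ft
  rw [← h]
  cases α <;> cases b <;> rfl

/-- The realisation given by a satisfying assignment. -/
def sig (lit : Fin m → Fin 3 → Bool × Fin N) (α : Fin N → Bool) (e : Fin m → Fin 3) :
    Core N m → Core N m
  | Sum.inl (x, a) => Sum.inl (x, a + (if α x then 1 else 2))
  | Sum.inr (Sum.inl (c, p)) => Sum.inr (Sum.inl (c, feta (e c) p))
  | Sum.inr (Sum.inr (c, i, p, f)) =>
      Sum.inr (Sum.inr (c, i, fpi (e c) p, f + (if α (lit c i).2 then 1 else 0)))

theorem sig_class (lit : Fin m → Fin 3 → Bool × Fin N) (α : Fin N → Bool) (e : Fin m → Fin 3)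
    (v : Core N m) : kcore (sig lit α e v) = kcore v := by
  rcases v with ⟨x, a⟩ | ⟨c, p⟩ | ⟨c, i, p, f⟩ <;> rfl

theorem sig_valid (lit : Fin m → Fin 3 → Bool × Fin N) (α : Fin N → Bool) (e : Fin m → Fin 3)
    (h : ∀ c i, (α (lit c i).2 == (lit c i).1) = decide (i = e c)) :
    Valid (gcore lit) (sig lit α e) := by
  have hcov : ∀ c i, ft (lit c i).1 i (e c) = if α (lit c i).2 then 1 else 0 :=
    fun c i => ft_eq _ _ _ _ (h c i)
  constructor
  · rintro (⟨x, a⟩ | ⟨c, p⟩ | ⟨c, i, p, f⟩)
    · simp only [sig, gcore, if_true]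
      generalize α x = t
      revert t a
      decide
    · simp only [sig, gcore, if_true]
      exact (F_hub (e c) p p).1 rfl
    · simp only [sig, gcore, and_self, if_true]
      rw [← hcov]
      exact (F_cov _ _ _ _ _ _ _).2 rfl
  · rintro (⟨x, a⟩ | ⟨c, p⟩ | ⟨c, i, p, f⟩) (⟨y, b⟩ | ⟨d, q⟩ | ⟨d, j, q, g⟩) hne
    · simp only [sig, gcore]
      by_cases hxy : x = y
      · subst hxy
        have hab : a ≠ b := fun h => hne (by rw [h])
        simp only [if_true]
        clear hne
        generalize α x = t
        revert t a b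
        decide
      · rw [if_neg hxy, if_neg (fun h => hxy h.symm)]
        simp only [ne_eq, decide_eq_decide]
        omega
    · simp only [sig, gcore, ne_eq, decide_eq_decide]
      omega
    · simp only [sig, gcore]
      by_cases hx : (lit d j).2 = x
      · rw [if_pos hx, if_pos hx, hx]
        exact F_varcov _ _ _
      · rw [if_neg hx, if_neg hx]
        simp only [ne_eq, decide_eq_decide]
        omega
    · simp only [sig, gcore, ne_eq, decide_eq_decide]
      omega
    · simp only [sig, gcore]
      by_cases hcd : c = d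
      · subst hcd
        have hpq : p ≠ q := fun h => hne (by rw [h])
        simp only [if_true]
        exact (F_hub (e c) p q).2 hpq
      · rw [if_neg hcd, if_neg (fun h => hcd h.symm)]
        simp only [ne_eq, decide_eq_decide]
        omega
    · simp only [sig, gcore]
      by_cases hcd : c = d
      · subst hcd
        simp only [if_true]
        rw [F_inv]
        simp
      · rw [if_neg hcd, if_neg (fun h => hcd h.symm)]
        simp only [ne_eq, decide_eq_decide]
        omega
    · simp only [sig, gcore]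
      by_cases hx : (lit c i).2 = y
      · rw [if_pos hx, if_pos hx, hx]
        exact (F_varcov _ _ _).symm
      · rw [if_neg hx, if_neg hx]
        simp only [ne_eq, decide_eq_decide]
        omega
    · simp only [sig, gcore]
      by_cases hcd : c = d
      · subst hcd
        simp only [if_true]
        rw [F_inv]
        simp
      · rw [if_neg hcd, if_neg (fun h => hcd h.symm)]
        simp only [ne_eq, decide_eq_decide]
        omega
    · simp only [sig, gcore]
      by_cases hcd : c = d ∧ i = j
      · obtain ⟨rfl, rfl⟩ := hcd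
        simp only [and_self, if_true]
        rw [← hcov]
        refine (F_cov _ _ _ _ _ _ _).1 ?_
        intro h
        apply hne
        simp only [Prod.mk.injEq] at h
        rw [h.1, h.2]
      · rw [if_neg hcd, if_neg (fun h => hcd ⟨h.1.symm, h.2.symm⟩)]
        simp only [ne_eq, decide_eq_decide]
        have : ¬ (c.1 = d.1 ∧ i.1 = j.1) := fun h => hcd ⟨Fin.ext h.1, Fin.ext h.2⟩
        omega

theorem F_shift : ∀ (α : Bool) (f y : Fin 3),
    (∀ a : Fin 3, decide (a + (if α then 1 else 2) = f) ≠ !decide (a = y + 1)) →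
    y = f + (if α then 1 else 0) := by decide

theorem ft_inj (α b : Bool) (i e : Fin 3) (h : (if α then 1 else 0) = ft b i e) :
    (α == b) = decide (i = e) := by
  unfold ft at h
  cases α <;> cases b <;> by_cases hie : i = e <;> simp [hie] at h ⊢

theorem core_sound (lit : Fin m → Fin 3 → Bool × Fin N) (τ : Core N m → Core N m)
    (hτ : Valid (gcore lit) τ) (hκ : ∀ v, kcore (τ v) = kcore v) :
    ∃ α : Fin N → Bool, ∀ c, ∃ e : Fin 3, ∀ i,
      (α (lit c i).2 == (lit c i).1) = decide (i = e) := by
  have hvar : ∀ x a, ∃ a', τ (Sum.inl (x, a)) = Sum.inl (x, a') := by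
    intro x a
    have h := hκ (Sum.inl (x, a))
    rcases hh : τ (Sum.inl (x, a)) with ⟨y, b⟩ | ⟨d, q⟩ | ⟨d, j, q, g⟩
    · rw [hh] at h
      simp only [kcore] at h
      have : y = x := Fin.ext (by omega)
      exact ⟨b, by rw [this]⟩
    · rw [hh] at h
      simp only [kcore] at h
      omega
    · rw [hh] at h
      simp only [kcore] at h
      omega
  have hhub : ∀ c p, ∃ p', τ (Sum.inr (Sum.inl (c, p))) = Sum.inr (Sum.inl (c, p')) := by
    intro c p
    have h := hκ (Sum.inr (Sum.inl (c, p)))
    rcases hh : τ (Sum.inr (Sum.inl (c, p))) with ⟨y, b⟩ | ⟨d, q⟩ | ⟨d, j, q, g⟩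
    · rw [hh] at h
      simp only [kcore] at h
      omega
    · rw [hh] at h
      simp only [kcore] at h
      have : d = c := Fin.ext (by omega)
      exact ⟨q, by rw [this]⟩
    · rw [hh] at h
      simp only [kcore] at h
      omega
  have hcov : ∀ c i p f, ∃ r : Fin 7 × Fin 3,
      τ (Sum.inr (Sum.inr (c, i, p, f))) = Sum.inr (Sum.inr (c, i, r.1, r.2)) := by
    intro c i p f
    have h := hκ (Sum.inr (Sum.inr (c, i, p, f)))
    rcases hh : τ (Sum.inr (Sum.inr (c, i, p, f))) with ⟨y, b⟩ | ⟨d, q⟩ | ⟨d, j, q, g⟩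
    · rw [hh] at h
      simp only [kcore] at h
      omega
    · rw [hh] at h
      simp only [kcore] at h
      omega
    · rw [hh] at h
      simp only [kcore] at h
      have h1 : d = c := Fin.ext (by omega)
      have h2 : j = i := Fin.ext (by omega)
      exact ⟨(q, g), by rw [h1, h2]⟩
  choose va hva using hvar
  choose ha hha using hhub
  choose r hr using hcov
  -- the variables
  have hvar2 : ∀ x, (∀ a, va x a = a + 1) ∨ (∀ a, va x a = a + 2) := by
    intro x
    apply F_var
    · intro a
      have h := hτ.1 (Sum.inl (x, a))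
      rw [hva] at h
      simpa [gcore] using h
    · intro a b hab
      have h := hτ.2 (Sum.inl (x, a)) (Sum.inl (x, b)) (by simpa using hab)
      rw [hva, hva] at h
      simpa [gcore] using h
  have hα : ∃ α : Fin N → Bool, ∀ x a, va x a = a + (if α x then 1 else 2) := by
    have : ∀ x, ∃ t : Bool, ∀ a, va x a = a + (if t then 1 else 2) := by
      intro x
      rcases hvar2 x with h | h
      · exact ⟨true, by simpa using h⟩
      · exact ⟨false, by simpa using h⟩
    choose α hα using this
    exact ⟨α, hα⟩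
  obtain ⟨α, hα⟩ := hα
  refine ⟨α, fun c => ?_⟩
  -- shifts
  have hshift : ∀ i p f, (r c i p f).2 = f + (if α (lit c i).2 then 1 else 0) := by
    intro i p f
    apply F_shift
    intro a
    have h := hτ.2 (Sum.inl ((lit c i).2, a)) (Sum.inr (Sum.inr (c, i, p, f))) (by simp)
    rw [hva, hr, hα] at h
    simpa only [gcore, if_true] using h
  -- the hub
  have hh1 : ∀ i p f v, ha c v = p ↔ v = (r c i p f).1 := by
    intro i p f v
    have h := hτ.2 (Sum.inr (Sum.inl (c, v))) (Sum.inr (Sum.inr (c, i, p, f))) (by simp)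
    rw [hha, hr] at h
    simp only [gcore, if_true] at h
    by_cases h1 : ha c v = p <;> by_cases h2 : v = (r c i p f).1 <;> simp_all
  have hh2 : ∀ i p f, (r c i p f).1 = (r c 0 p 0).1 := by
    intro i p f
    have h1 := (hh1 i p f (r c i p f).1).2 rfl
    exact (hh1 0 p 0 _).1 h1
  have hfin : ∀ i, ∃ e : Fin 3, (∀ p, (r c 0 p 0).1 = fpi e p) ∧
      (if α (lit c i).2 then 1 else 0) = ft (lit c i).1 i e := by
    intro i
    apply F_sound (lit c i).1 i (if α (lit c i).2 then 1 else 0)
    · cases α (lit c i).2 <;> decide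
    · intro p f
      have h := hτ.1 (Sum.inr (Sum.inr (c, i, p, f)))
      rw [hr] at h
      simp only [gcore, and_self, if_true] at h
      rw [hshift, hh2] at h
      exact h
    · intro p f q g hne
      have h := hτ.2 (Sum.inr (Sum.inr (c, i, p, f))) (Sum.inr (Sum.inr (c, i, q, g)))
        (by
          intro h
          apply hne
          simp only [Sum.inr.injEq, Prod.mk.injEq, true_and] at h
          rw [h.1, h.2])
      rw [hr, hr] at h
      simp only [gcore, and_self, if_true] at h
      rw [hshift, hh2, hshift, hh2 i q g] at h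
      exact h
  obtain ⟨e, he, _⟩ := hfin 0
  refine ⟨e, fun i => ?_⟩
  obtain ⟨e', he', ht⟩ := hfin i
  have : e' = e := fpi_inj _ _ (fun p => by rw [← he', he])
  subst this
  exact ft_inj _ _ _ _ ht

theorem core_iff (lit : Fin m → Fin 3 → Bool × Fin N) :
    (∃ τ, Valid (gcore lit) τ ∧ ∀ v, kcore (τ v) = kcore v) ↔
    ∃ α : Fin N → Bool, ∀ c, ∃ e : Fin 3, ∀ i,
      (α (lit c i).2 == (lit c i).1) = decide (i = e) := by
  constructor
  · rintro ⟨τ, h1, h2⟩
    exact core_sound lit τ h1 h2
  · rintro ⟨α, h⟩
    choose e he using h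
    exact ⟨sig lit α e, sig_valid lit α e he, sig_class lit α e⟩

end Pool.Agent.H958R2
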