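import Pool.Agent.NPC.Defs

/-!
# The tournament neighbourhood list problem
-/

namespace Pool.Agent.H958R2

/-- `T u v` means that `(u, v)` is an arc; `T` is a tournament: no loops, and exactly one of the
two arcs between any two distinct vertices. -/
def IsTournament {n : ℕ} (T : Fin n → Fin n → Prop) : Prop :=
  (∀ v, ¬ T v v) ∧ ∀ u v, u ≠ v → (T u v ↔ ¬ T v u)

/-- The list `N` of `n` subsets of the vertex set is, up to reordering, the list of
out-neighbourhoods of some tournament. -/
def Realised {n : ℕ} (N : Fin n → Set (Fin n)) : Prop :=
  ∃ (T : Fin n → Fin n → Prop) (σ : Equiv.Perm (Fin n)),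
    IsTournament T ∧ ∀ v, {w | T v w} = N (σ v)

/-- The 0-1 matrix `Γ` of a list of sets, as a list of rows (incidence vectors). -/
noncomputable def rows {n : ℕ} (N : Fin n → Set (Fin n)) : List (List Bool) :=
  open Classical in List.ofFn fun i => List.ofFn fun j => decide (j ∈ N i)

/-- The tournament neighbourhood list problem NLT: given (the matrix of) a list of `n` subsets of
an `n`-element set `V`, is it realised by a tournament on `V`? -/
def NLT (M : List (List Bool)) : Prop :=
  ∃ (n : ℕ) (N : Fin n → Set (Fin n)), rows N = M ∧ Realised N

end Pool.Agent.H958R2
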