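import Pool.Agent.H958R2.NLT.Sep

/-!
# The gadgets: Fano plane lists and their three-fold covers
-/

namespace Pool.Agent.H958R2

/-- The incidence matrix of the Fano plane (sets times points). -/
def fA : Fin 7 → Fin 7 → Bool := ![![false, false, true, false, false, true, true], ![true, false, false, false, true, false, true], ![false, true, false, true, false, false, true], ![true, true, false, false, false, true, false], ![true, false, true, true, false, false, false], ![false, true, true, false, true, false, false], ![false, false, false, true, true, true, false]]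

/-- Three of the eight tournament labellings of the Fano plane. -/
def fpi : Fin 3 → Fin 7 → Fin 7 := ![![0, 1, 2, 3, 4, 5, 6], ![0, 4, 6, 1, 3, 2, 5], ![2, 0, 1, 5, 3, 4, 6]]

/-- Inverses of `fpi`. -/
def feta : Fin 3 → Fin 7 → Fin 7 := ![![0, 1, 2, 3, 4, 5, 6], ![0, 3, 5, 4, 1, 6, 2], ![1, 2, 0, 4, 5, 3, 6]]

/-- Shifts of the blocks. -/
def fc0 : Fin 3 → Fin 7 → Fin 7 → Fin 3 := ![![![2, 1, 0, 2, 0, 1, 2], ![1, 0, 1, 2, 0, 1, 1], ![2, 1, 2, 2, 0, 1, 0], ![0, 0, 0, 0, 2, 0, 0], ![2, 2, 2, 0, 0, 2, 2], ![1, 1, 1, 2, 0, 0, 1], ![0, 1, 2, 2, 0, 1, 2]],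
  ![![2, 2, 2, 1, 0, 1, 0], ![1, 1, 2, 0, 1, 1, 0], ![1, 1, 2, 1, 1, 0, 0], ![2, 0, 2, 1, 2, 1, 0], ![0, 2, 2, 1, 2, 1, 0], ![2, 2, 0, 2, 2, 2, 0], ![0, 0, 0, 0, 0, 0, 2]],
  ![![2, 0, 0, 0, 0, 0, 0], ![0, 2, 0, 1, 1, 1, 1], ![0, 0, 2, 2, 2, 2, 2], ![0, 2, 1, 2, 2, 1, 0], ![0, 2, 1, 1, 1, 0, 1], ![0, 2, 1, 2, 0, 1, 2], ![0, 2, 1, 0, 2, 1, 2]]]

/-- Shifts of the blocks, with sign. -/
def fc (b : Bool) (i : Fin 3) (l p : Fin 7) : Fin 3 :=
  if b then fc0 i l p else 1 - fc0 i l p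

/-- Lists of the three-fold covers. -/
def fE (b : Bool) (i : Fin 3) (l : Fin 7) (g : Fin 3) (p : Fin 7) (f : Fin 3) : Bool :=
  xor (fA l p) (decide (g - f = fc b i l p))

/-- the shift -/
def ft (b : Bool) (i e : Fin 3) : Fin 3 := if b == decide (i = e) then 1 else 0

theorem F_hub : ∀ e : Fin 3, ∀ p q : Fin 7, (p = q → fA p (feta e p) = false) ∧
    (p ≠ q → fA q (feta e p) ≠ fA p (feta e q)) := by decide

theorem F_inv : ∀ e : Fin 3, ∀ p q : Fin 7, decide (feta e p = q) = decide (p = fpi e q) := by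
  decide

theorem F_cov : ∀ (b : Bool) (i e : Fin 3) (p : Fin 7) (f : Fin 3) (q : Fin 7) (g : Fin 3),
    ((p, f) ≠ (q, g) → fE b i (fpi e p) (f + ft b i e) q g ≠ fE b i (fpi e q) (g + ft b i e) p f) ∧
    ((p, f) = (q, g) → fE b i (fpi e p) (f + ft b i e) q g = false) := by
  decide +kernel

/-- Validity inside one fibre. -/
def okd (b : Bool) (i t : Fin 3) (p x : Fin 7) : Prop :=
  ∀ f g : Fin 3, (f = g → fE b i x (f + t) p f = false) ∧
    (f ≠ g → fE b i x (f + t) p g ≠ fE b i x (g + t) p f)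

/-- Validity between two fibres. -/
def okp (b : Bool) (i t : Fin 3) (p x q y : Fin 7) : Prop :=
  ∀ f g : Fin 3, fE b i x (f + t) q g ≠ fE b i y (g + t) p f

instance (b : Bool) (i t : Fin 3) (p x : Fin 7) : Decidable (okd b i t p x) := by
  unfold okd; infer_instance

instance (b : Bool) (i t : Fin 3) (p x q y : Fin 7) : Decidable (okp b i t p x q y) := by
  unfold okp; infer_instance

/-- The search tree, bottom. -/
def L7 (b : Bool) (i t : Fin 3) (x0 x1 x2 x3 x4 x5 x6 : Fin 7) : Prop :=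
  ∃ e : Fin 3, (x0 = fpi e 0 ∧ x1 = fpi e 1 ∧ x2 = fpi e 2 ∧ x3 = fpi e 3 ∧ x4 = fpi e 4 ∧
      x5 = fpi e 5 ∧ x6 = fpi e 6) ∧ t = ft b i e

instance (b : Bool) (i t : Fin 3) (x0 x1 x2 x3 x4 x5 x6 : Fin 7) : Decidable (L7 b i t x0 x1 x2 x3 x4 x5 x6) := by
  unfold L7; infer_instance

/-- The search tree, level 6. -/
def L6 (b : Bool) (i t : Fin 3) (x0 x1 x2 x3 x4 x5 : Fin 7) : Prop :=
  ∀ x6 : Fin 7, okd b i t 6 x6 → okp b i t 0 x0 6 x6 →
      okp b i t 1 x1 6 x6 →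
      okp b i t 2 x2 6 x6 →
      okp b i t 3 x3 6 x6 →
      okp b i t 4 x4 6 x6 →
      okp b i t 5 x5 6 x6 →
      L7 b i t x0 x1 x2 x3 x4 x5 x6

instance (b : Bool) (i t : Fin 3) (x0 x1 x2 x3 x4 x5 : Fin 7) : Decidable (L6 b i t x0 x1 x2 x3 x4 x5) := by
  unfold L6; infer_instance

/-- The search tree, level 5. -/
def L5 (b : Bool) (i t : Fin 3) (x0 x1 x2 x3 x4 : Fin 7) : Prop :=
  ∀ x5 : Fin 7, okd b i t 5 x5 → okp b i t 0 x0 5 x5 →
      okp b i t 1 x1 5 x5 →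
      okp b i t 2 x2 5 x5 →
      okp b i t 3 x3 5 x5 →
      okp b i t 4 x4 5 x5 →
      L6 b i t x0 x1 x2 x3 x4 x5

instance (b : Bool) (i t : Fin 3) (x0 x1 x2 x3 x4 : Fin 7) : Decidable (L5 b i t x0 x1 x2 x3 x4) := by
  unfold L5; infer_instance

/-- The search tree, level 4. -/
def L4 (b : Bool) (i t : Fin 3) (x0 x1 x2 x3 : Fin 7) : Prop :=
  ∀ x4 : Fin 7, okd b i t 4 x4 → okp b i t 0 x0 4 x4 →
      okp b i t 1 x1 4 x4 →
      okp b i t 2 x2 4 x4 →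
      okp b i t 3 x3 4 x4 →
      L5 b i t x0 x1 x2 x3 x4

instance (b : Bool) (i t : Fin 3) (x0 x1 x2 x3 : Fin 7) : Decidable (L4 b i t x0 x1 x2 x3) := by
  unfold L4; infer_instance

/-- The search tree, level 3. -/
def L3 (b : Bool) (i t : Fin 3) (x0 x1 x2 : Fin 7) : Prop :=
  ∀ x3 : Fin 7, okd b i t 3 x3 → okp b i t 0 x0 3 x3 →
      okp b i t 1 x1 3 x3 →
      okp b i t 2 x2 3 x3 →
      L4 b i t x0 x1 x2 x3

instance (b : Bool) (i t : Fin 3) (x0 x1 x2 : Fin 7) : Decidable (L3 b i t x0 x1 x2) := by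
  unfold L3; infer_instance

/-- The search tree, level 2. -/
def L2 (b : Bool) (i t : Fin 3) (x0 x1 : Fin 7) : Prop :=
  ∀ x2 : Fin 7, okd b i t 2 x2 → okp b i t 0 x0 2 x2 →
      okp b i t 1 x1 2 x2 →
      L3 b i t x0 x1 x2

instance (b : Bool) (i t : Fin 3) (x0 x1 : Fin 7) : Decidable (L2 b i t x0 x1) := by
  unfold L2; infer_instance

/-- The search tree, level 1. -/
def L1 (b : Bool) (i t : Fin 3) (x0 : Fin 7) : Prop :=
  ∀ x1 : Fin 7, okd b i t 1 x1 → okp b i t 0 x0 1 x1 →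
      L2 b i t x0 x1

instance (b : Bool) (i t : Fin 3) (x0 : Fin 7) : Decidable (L1 b i t x0) := by
  unfold L1; infer_instance

/-- The search tree, level 0. -/
def L0 (b : Bool) (i t : Fin 3) : Prop :=
  ∀ x0 : Fin 7, okd b i t 0 x0 → L1 b i t x0

instance (b : Bool) (i t : Fin 3) : Decidable (L0 b i t ) := by
  unfold L0; infer_instance

theorem F_search : ∀ (b : Bool) (i t : Fin 3), t ≠ 2 → L0 b i t := by
  decide +kernel

theorem F_sound (b : Bool) (i t : Fin 3) (ht : t ≠ 2) (π : Fin 7 → Fin 7)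
    (h1 : ∀ (p : Fin 7) (f : Fin 3), fE b i (π p) (f + t) p f = false)
    (h2 : ∀ (p : Fin 7) (f : Fin 3) (q : Fin 7) (g : Fin 3), (p, f) ≠ (q, g) →
      fE b i (π p) (f + t) q g ≠ fE b i (π q) (g + t) p f) :
    ∃ e : Fin 3, (∀ p, π p = fpi e p) ∧ t = ft b i e := by
  have hd : ∀ p, okd b i t p (π p) := fun p f g =>
    ⟨fun _ => h1 p f, fun hne => h2 p f p g (fun h => hne (by simpa using h))⟩
  have hp : ∀ p q, p ≠ q → okp b i t p (π p) q (π q) := fun p q hne f g =>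
    h2 p f q g (fun h => hne (by simpa using congrArg Prod.fst h))
  obtain ⟨e, ⟨g0, g1, g2, g3, g4, g5, g6⟩, ht'⟩ := F_search b i t ht (π 0) (hd 0)
    (π 1) (hd 1) (hp 0 1 (by decide))
    (π 2) (hd 2) (hp 0 2 (by decide)) (hp 1 2 (by decide))
    (π 3) (hd 3) (hp 0 3 (by decide)) (hp 1 3 (by decide)) (hp 2 3 (by decide))
    (π 4) (hd 4) (hp 0 4 (by decide)) (hp 1 4 (by decide)) (hp 2 4 (by decide))
      (hp 3 4 (by decide))
    (π 5) (hd 5) (hp 0 5 (by decide)) (hp 1 5 (by decide)) (hp 2 5 (by decide))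
      (hp 3 5 (by decide)) (hp 4 5 (by decide))
    (π 6) (hd 6) (hp 0 6 (by decide)) (hp 1 6 (by decide)) (hp 2 6 (by decide))
      (hp 3 6 (by decide)) (hp 4 6 (by decide)) (hp 5 6 (by decide))
  refine ⟨e, ?_, ht'⟩
  intro p
  fin_cases p
  · exact g0
  · exact g1
  · exact g2
  · exact g3
  · exact g4
  · exact g5
  · exact g6

theorem fpi_inj : ∀ e e' : Fin 3, (∀ p, fpi e p = fpi e' p) → e = e' := by decide

theorem F_var : ∀ h : Fin 3 → Fin 3, (∀ a, h a ≠ a) →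
    (∀ a b, a ≠ b → decide (h a = b) ≠ decide (h b = a)) →
    (∀ a, h a = a + 1) ∨ (∀ a, h a = a + 2) := by decide

end Pool.Agent.H958R2
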