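import Mathlib

/-!
# Separation of classes in the tournament neighbourhood list problem
-/

namespace Pool.Agent.H958R2

/-- The function `σ` (which list goes to which vertex) realises the lists `G` by a tournament. -/
def Valid {V : Type*} (G : V → V → Bool) (σ : V → V) : Prop :=
  (∀ v, G (σ v) v = false) ∧ ∀ u v, u ≠ v → G (σ u) v ≠ G (σ v) u

theorem Valid.injective {V : Type*} {G : V → V → Bool} {σ : V → V} (h : Valid G σ) :
    Function.Injective σ := by
  intro u v huv
  by_contra hne
  have h1 := h.2 u v hne
  rw [huv, h.1 v, ← huv, h.1 u] at h1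
  exact h1 rfl

section Ext

variable {C : Type*} {M s : ℕ}

/-- The extended lists: `M` markers, a block of `3 * s` vertices, and the core `C`. -/
def ext (M s : ℕ) (κ : C → ℕ) (G : C → C → Bool) :
    Fin M ⊕ ((Fin 3 × Fin s) ⊕ C) → Fin M ⊕ ((Fin 3 × Fin s) ⊕ C) → Bool
  | Sum.inl i, Sum.inl j => decide (i < j)
  | Sum.inl _, Sum.inr (Sum.inl _) => true
  | Sum.inl i, Sum.inr (Sum.inr c) => decide (i.1 ≤ κ c)
  | Sum.inr (Sum.inl _), Sum.inl _ => false
  | Sum.inr (Sum.inl p), Sum.inr (Sum.inl q) =>
      decide (q.1 = p.1 + 1) || (decide (p.1 = q.1) && decide (p.2 < q.2))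
  | Sum.inr (Sum.inl _), Sum.inr (Sum.inr _) => true
  | Sum.inr (Sum.inr c), Sum.inl j => decide (κ c < j.1)
  | Sum.inr (Sum.inr _), Sum.inr (Sum.inl _) => false
  | Sum.inr (Sum.inr c), Sum.inr (Sum.inr d) => G c d

theorem ext_valid {κ : C → ℕ} {G : C → C → Bool} {τ : C → C} (hτ : Valid G τ)
    (hκ : ∀ c, κ (τ c) = κ c) :
    Valid (ext M s κ G) (Sum.map id (Sum.map id τ)) := by
  constructor
  · rintro (i | ⟨i, x⟩ | c)
    · simp [ext]
    · simp [ext]
    · simpa [ext] using hτ.1 c
  · rintro (i | ⟨i, x⟩ | c) (j | ⟨j, y⟩ | d) hne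
    · simp only [Sum.map_inl, id, ext, ne_eq, decide_eq_decide]
      have : i ≠ j := fun h => hne (by rw [h])
      omega
    · simp [ext]
    · simp only [Sum.map_inl, Sum.map_inr, id, ext, ne_eq, decide_eq_decide, hκ]
      omega
    · simp [ext]
    · have hne' : ¬ (i = j ∧ x = y) := fun h => hne (by rw [h.1, h.2])
      simp only [Sum.map_inl, Sum.map_inr, id, ext]
      have key1 : ∀ i j : Fin 3, i ≠ j → decide (j = i + 1) = !decide (i = j + 1) := by decide
      have key2 : ∀ i : Fin 3, decide (i = i + 1) = false := by decide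
      by_cases hij : i = j
      · rw [← hij, key2]
        have h4 : x ≠ y := fun h => hne' ⟨hij, h⟩
        simp only [Bool.false_or, decide_true, Bool.true_and, ne_eq, decide_eq_decide]
        omega
      · have h3 : decide (i = j) = false := decide_eq_false hij
        have h4 : decide (j = i) = false := decide_eq_false (fun h => hij h.symm)
        rw [h3, h4, key1 i j hij]
        simp
    · simp [ext]
    · simp only [Sum.map_inl, Sum.map_inr, id, ext, ne_eq, decide_eq_decide, hκ]
      omega
    · simp [ext]
    · simp only [Sum.map_inr, ext]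
      exact hτ.2 c d (fun h => hne (by rw [h]))

open Classical in
/-- the number of elements of a list -/
noncomputable def osize {V : Type*} [Fintype V] (G : V → V → Bool) (a : V) : ℕ :=
  (Finset.univ.filter (fun v => G a v = true)).card

theorem osize_eq {V : Type*} [Fintype V] {G : V → V → Bool} {σ : V → V} (hσ : Valid G σ) {v : V}
    (h0 : G v v = false) (h1 : ∀ u, u ≠ v → G u v ≠ G v u) : osize G (σ v) = osize G v := by
  classical
  have hb : Function.Bijective σ := (Finite.injective_iff_bijective).1 hσ.injective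
  have e1 : (Finset.univ.filter (fun u => G (σ v) u = true)) =
      (Finset.univ.filter (fun u => G (σ u) v = false)).erase v := by
    ext u
    simp only [Finset.mem_filter, Finset.mem_univ, true_and, Finset.mem_erase]
    constructor
    · intro h
      have hne : u ≠ v := by
        rintro rfl
        rw [hσ.1] at h
        exact absurd h (by simp)
      have h2 := hσ.2 u v hne
      rw [h] at h2
      exact ⟨hne, by simpa using h2⟩
    · rintro ⟨hne, h⟩
      have h2 := hσ.2 u v hne
      rw [h] at h2
      simpa using h2.symm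
  have e2 : (Finset.univ.filter (fun u => G v u = true)) =
      (Finset.univ.filter (fun u => G u v = false)).erase v := by
    ext u
    simp only [Finset.mem_filter, Finset.mem_univ, true_and, Finset.mem_erase]
    constructor
    · intro h
      have hne : u ≠ v := by
        rintro rfl
        rw [h0] at h
        exact absurd h (by simp)
      have h2 := h1 u hne
      rw [h] at h2
      exact ⟨hne, by simpa using h2⟩
    · rintro ⟨hne, h⟩
      have h2 := h1 u hne
      rw [h] at h2
      simpa using h2.symm
  have e3 : (Finset.univ.filter (fun u => G (σ u) v = false)).card =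
      (Finset.univ.filter (fun u => G u v = false)).card := by
    refine Finset.card_bij (fun u _ => σ u) ?_ ?_ ?_
    · intro u hu
      simpa using hu
    · intro a _ b _ h
      exact hb.1 h
    · intro b hb'
      obtain ⟨a, rfl⟩ := hb.2 b
      exact ⟨a, by simpa using hb', rfl⟩
  unfold osize
  rw [e1, e2, Finset.card_erase_of_mem, Finset.card_erase_of_mem, e3]
  · simpa using h0
  · simpa using hσ.1 v

theorem ext_marker_tour {κ : C → ℕ} {G : C → C → Bool} (j : Fin M) :
    ext M s κ G (Sum.inl j) (Sum.inl j) = false ∧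
    ∀ u, u ≠ Sum.inl j → ext M s κ G u (Sum.inl j) ≠ ext M s κ G (Sum.inl j) u := by
  constructor
  · simp [ext]
  · rintro (i | p | c) hne
    · simp only [ext, ne_eq, decide_eq_decide]
      have : i ≠ j := fun h => hne (by rw [h])
      omega
    · simp [ext]
    · simp only [ext, ne_eq, decide_eq_decide]
      omega

theorem osize_marker_lt [Fintype C] {κ : C → ℕ} {G : C → C → Bool} {i j : Fin M} (h : i < j) :
    osize (ext M s κ G) (Sum.inl j) < osize (ext M s κ G) (Sum.inl i) := by
  classical
  unfold osize
  refine Finset.card_lt_card (Finset.ssubset_iff_subset_ne.2 ⟨?_, ?_⟩)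
  · rintro (k | p | c)
    · simp only [Finset.mem_filter, Finset.mem_univ, true_and, ext, decide_eq_true_eq]
      omega
    · simp [ext]
    · simp only [Finset.mem_filter, Finset.mem_univ, true_and, ext, decide_eq_true_eq]
      omega
  · intro he
    have h1 : (Sum.inl j : Fin M ⊕ ((Fin 3 × Fin s) ⊕ C)) ∈
        Finset.univ.filter (fun v => ext M s κ G (Sum.inl i) v = true) := by
      simp [ext, h]
    rw [← he] at h1
    simp [ext] at h1

theorem le_osize_marker [Fintype C] {κ : C → ℕ} {G : C → C → Bool} (i : Fin M) :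
    3 * s ≤ osize (ext M s κ G) (Sum.inl i) := by
  classical
  unfold osize
  have h1 : (Finset.univ : Finset (Fin 3 × Fin s)).map
      ⟨fun p => (Sum.inr (Sum.inl p) : Fin M ⊕ ((Fin 3 × Fin s) ⊕ C)), fun a b h => by
        simpa using h⟩ ⊆ Finset.univ.filter (fun v => ext M s κ G (Sum.inl i) v = true) := by
    intro x hx
    rw [Finset.mem_map] at hx
    obtain ⟨p, _, rfl⟩ := hx
    simp [ext]
  have h2 := Finset.card_le_card h1
  rw [Finset.card_map, Finset.card_univ, Fintype.card_prod, Fintype.card_fin,
    Fintype.card_fin] at h2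
  exact h2

theorem osize_block_le [Fintype C] {κ : C → ℕ} {G : C → C → Bool} (p : Fin 3 × Fin s) :
    osize (ext M s κ G) (Sum.inr (Sum.inl p)) ≤ 2 * s + Fintype.card C := by
  classical
  unfold osize
  have h1 : Finset.univ.filter (fun v => ext M s κ G (Sum.inr (Sum.inl p)) v = true) ⊆
      ((({p.1, p.1 + 1} : Finset (Fin 3)) ×ˢ (Finset.univ : Finset (Fin s))).image
        (fun q => (Sum.inr (Sum.inl q) : Fin M ⊕ ((Fin 3 × Fin s) ⊕ C)))) ∪
      ((Finset.univ : Finset C).image
        (fun c => (Sum.inr (Sum.inr c) : Fin M ⊕ ((Fin 3 × Fin s) ⊕ C)))) := by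
    rintro (k | q | c) h
    · simp [ext] at h
    · simp only [Finset.mem_filter, Finset.mem_univ, true_and, ext, Bool.or_eq_true,
        decide_eq_true_eq, Bool.and_eq_true] at h
      rw [Finset.mem_union]
      left
      rw [Finset.mem_image]
      refine ⟨q, ?_, rfl⟩
      rw [Finset.mem_product]
      refine ⟨?_, Finset.mem_univ _⟩
      rcases h with h | ⟨h, _⟩
      · simp [h]
      · simp [h]
    · rw [Finset.mem_union]
      right
      simp
  refine (Finset.card_le_card h1).trans ((Finset.card_union_le _ _).trans (Nat.add_le_add ?_ ?_))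
  · refine Finset.card_image_le.trans ?_
    rw [Finset.card_product, Finset.card_univ, Fintype.card_fin]
    exact Nat.mul_le_mul_right _ Finset.card_le_two
  · exact Finset.card_image_le.trans (by rw [Finset.card_univ])

theorem osize_core_le [Fintype C] {κ : C → ℕ} {G : C → C → Bool} (c : C) :
    osize (ext M s κ G) (Sum.inr (Sum.inr c)) ≤ M + Fintype.card C := by
  classical
  unfold osize
  have h1 : Finset.univ.filter (fun v => ext M s κ G (Sum.inr (Sum.inr c)) v = true) ⊆
      ((Finset.univ : Finset (Fin M)).image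
        (fun q => (Sum.inl q : Fin M ⊕ ((Fin 3 × Fin s) ⊕ C)))) ∪
      ((Finset.univ : Finset C).image
        (fun c => (Sum.inr (Sum.inr c) : Fin M ⊕ ((Fin 3 × Fin s) ⊕ C)))) := by
    rintro (k | q | d) h
    · simp
    · simp [ext] at h
    · simp
  refine (Finset.card_le_card h1).trans ((Finset.card_union_le _ _).trans (Nat.add_le_add ?_ ?_))
  · exact Finset.card_image_le.trans (by rw [Finset.card_univ, Fintype.card_fin])
  · exact Finset.card_image_le.trans (by rw [Finset.card_univ])

theorem ext_marker_fixed [Fintype C] {κ : C → ℕ} {G : C → C → Bool}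
    {σ : Fin M ⊕ ((Fin 3 × Fin s) ⊕ C) → Fin M ⊕ ((Fin 3 × Fin s) ⊕ C)}
    (hs1 : Fintype.card C < s) (hs2 : M + Fintype.card C < 3 * s)
    (hσ : Valid (ext M s κ G) σ) (j : Fin M) : σ (Sum.inl j) = Sum.inl j := by
  obtain ⟨h0, h1⟩ := ext_marker_tour (s := s) (κ := κ) (G := G) j
  have h2 := osize_eq hσ h0 h1
  have h3 := le_osize_marker (s := s) (κ := κ) (G := G) j
  rcases hh : σ (Sum.inl j) with i | p | c
  · rw [hh] at h2
    rcases lt_trichotomy i j with h | h | h
    · have := osize_marker_lt (s := s) (κ := κ) (G := G) h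
      omega
    · rw [h]
    · have := osize_marker_lt (s := s) (κ := κ) (G := G) h
      omega
  · rw [hh] at h2
    have := osize_block_le (M := M) (κ := κ) (G := G) p
    omega
  · rw [hh] at h2
    have := osize_core_le (M := M) (s := s) (κ := κ) (G := G) c
    omega

/-- The separation lemma: realisations of the extended lists are the class preserving
realisations of the core. -/
theorem ext_valid_iff [Fintype C] {κ : C → ℕ} {G : C → C → Bool}
    (hs1 : Fintype.card C < s) (hs2 : M + Fintype.card C < 3 * s) (hM : ∀ c, κ c + 1 < M) :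
    (∃ σ, Valid (ext M s κ G) σ) ↔ ∃ τ : C → C, Valid G τ ∧ ∀ c, κ (τ c) = κ c := by
  constructor
  · rintro ⟨σ, hσ⟩
    have hfix := ext_marker_fixed hs1 hs2 hσ
    have hkey : ∀ (v : Fin M ⊕ ((Fin 3 × Fin s) ⊕ C)) (k : Fin M), v ≠ Sum.inl k →
        ext M s κ G (σ v) (Sum.inl k) ≠ ext M s κ G (Sum.inl k) v := by
      intro v k hne
      have := hσ.2 v (Sum.inl k) hne
      rwa [hfix k] at this
    have hcore : ∀ c : C, ∃ d : C, σ (Sum.inr (Sum.inr c)) = Sum.inr (Sum.inr d) ∧ κ d = κ c := by
      intro c
      rcases hh : σ (Sum.inr (Sum.inr c)) with i | p | d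
      · exfalso
        have h1 : σ (Sum.inr (Sum.inr c)) = σ (Sum.inl i) := by rw [hh, hfix]
        have := hσ.injective h1
        simp at this
      · exfalso
        have h1 := hkey (Sum.inr (Sum.inr c)) ⟨κ c + 1, hM c⟩ (by simp)
        rw [hh] at h1
        simp [ext] at h1
      · refine ⟨d, rfl, ?_⟩
        rcases lt_trichotomy (κ d) (κ c) with h | h | h
        · have h1 := hkey (Sum.inr (Sum.inr c)) ⟨κ c, by have := hM c; omega⟩ (by simp)
          rw [hh] at h1
          simp [ext] at h1
          omega
        · exact h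
        · have h1 := hkey (Sum.inr (Sum.inr c)) ⟨κ c + 1, hM c⟩ (by simp)
          rw [hh] at h1
          simp [ext] at h1
          omega
    choose τ hτ hτκ using hcore
    refine ⟨τ, ⟨?_, ?_⟩, hτκ⟩
    · intro c
      have := hσ.1 (Sum.inr (Sum.inr c))
      rw [hτ] at this
      simpa [ext] using this
    · intro c d hne
      have := hσ.2 (Sum.inr (Sum.inr c)) (Sum.inr (Sum.inr d)) (by simpa using hne)
      rw [hτ, hτ] at this
      simpa [ext] using this
  · rintro ⟨τ, hτ, hκ⟩
    exact ⟨_, ext_valid hτ hκ⟩

end Ext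

end Pool.Agent.H958R2
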