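import Pool.Agent.H958R2.NLT.Defs
import Pool.Agent.H958R2.NLT.Sep

/-!
# From matrices to realisations
-/

namespace Pool.Agent.H958R2

theorem ofFn2_inj {n : ℕ} {A B : Fin n → Fin n → Bool}
    (h : (List.ofFn fun i => List.ofFn fun j => A i j) = List.ofFn fun i => List.ofFn fun j => B i j) :
    A = B := by
  have h1 := List.ofFn_injective h
  funext i j
  have h2 := List.ofFn_injective (congrFun h1 i)
  exact congrFun h2 j

theorem nlt_ofFn {n : ℕ} (B : Fin n → Fin n → Bool) :
    NLT (List.ofFn fun i => List.ofFn fun j => B i j) ↔ ∃ σ : Fin n → Fin n, Valid B σ := by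
  classical
  constructor
  · rintro ⟨n', N, hN, T, σ, hT, hσ⟩
    have hn : n' = n := by
      have := congrArg List.length hN
      simpa [rows] using this
    subst hn
    unfold rows at hN
    have hB : ∀ i j, B i j = decide (j ∈ N i) := fun i j =>
      (congrFun (congrFun (ofFn2_inj hN) i) j).symm
    have hBT : ∀ u v, B (σ u) v = decide (T u v) := by
      intro u v
      rw [hB, decide_eq_decide, ← hσ u]
      rfl
    refine ⟨σ, ?_, ?_⟩
    · intro v
      rw [hBT]
      exact decide_eq_false (hT.1 v)
    · intro u v hne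
      rw [hBT, hBT, ne_eq, decide_eq_decide]
      have := hT.2 u v hne
      tauto
  · rintro ⟨σ, hσ⟩
    refine ⟨n, fun i => {j | B i j = true}, ?_, fun u v => B (σ u) v = true,
      Equiv.ofBijective σ ((Finite.injective_iff_bijective).1 hσ.injective), ⟨?_, ?_⟩, ?_⟩
    · unfold rows
      simp
    · intro v
      have := hσ.1 v
      simp [this]
    · intro u v hne
      have := hσ.2 u v hne
      cases h1 : B (σ u) v <;> cases h2 : B (σ v) u <;> simp_all
    · intro v
      rfl

theorem exists_equiv' {V Λ : Type} [Fintype V] (vs : List Λ) (c : V → Λ)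
    (hc : Function.Injective c) (hmem : ∀ x, c x ∈ vs) (hlen : vs.length = Fintype.card V) :
    ∃ e : Fin vs.length ≃ V, ∀ i, c (e i) = vs[i] := by
  have h1 : ∀ x, ∃ i : Fin vs.length, vs[i] = c x := by
    intro x
    obtain ⟨i, hi, h⟩ := List.getElem_of_mem (hmem x)
    exact ⟨⟨i, hi⟩, h⟩
  choose g hg using h1
  have hinj : Function.Injective g := by
    intro x y hxy
    apply hc
    rw [← hg, ← hg, hxy]
  have hbij : Function.Bijective g := by
    rw [Fintype.bijective_iff_injective_and_card]
    exact ⟨hinj, by rw [Fintype.card_fin, hlen]⟩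
  refine ⟨(Equiv.ofBijective g hbij).symm, fun i => ?_⟩
  obtain ⟨x, rfl⟩ := hbij.2 i
  rw [hg]
  congr 1
  exact (Equiv.ofBijective g hbij).symm_apply_apply x

theorem nlt_list {V Λ : Type} [Fintype V] (vs : List Λ) (c : V → Λ)
    (hc : Function.Injective c) (hmem : ∀ x, c x ∈ vs) (hlen : vs.length = Fintype.card V)
    (G : Λ → Λ → Bool) :
    NLT (vs.map fun a => vs.map (G a)) ↔ ∃ σ : V → V, Valid (fun a b => G (c a) (c b)) σ := by
  obtain ⟨e, he⟩ := exists_equiv' vs c hc hmem hlen
  have h1 : (vs.map fun a => vs.map (G a)) =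
      List.ofFn fun i : Fin vs.length => List.ofFn fun j : Fin vs.length => G vs[i] vs[j] := by
    apply List.ext_getElem
    · simp
    · intro i h1 h2
      simp only [List.getElem_ofFn, List.getElem_map]
      apply List.ext_getElem
      · simp
      · intro j h3 h4
        simp
  have h2 : (fun i j : Fin vs.length => G vs[i] vs[j]) = fun i j => G (c (e i)) (c (e j)) := by
    funext i j
    rw [he, he]
  rw [h1, nlt_ofFn, h2]
  constructor
  · rintro ⟨σ, hσ⟩
    refine ⟨fun v => e (σ (e.symm v)), ?_, ?_⟩
    · intro v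
      have h := hσ.1 (e.symm v)
      simpa using h
    · intro u v hne
      have h := hσ.2 (e.symm u) (e.symm v) (fun h => hne (e.symm.injective h))
      simpa using h
  · rintro ⟨σ, hσ⟩
    refine ⟨fun v => e.symm (σ (e v)), ?_, ?_⟩
    · intro v
      have h := hσ.1 (e v)
      simpa using h
    · intro u v hne
      have h := hσ.2 (e u) (e v) (fun h => hne (e.injective h))
      simpa using h

end Pool.Agent.H958R2
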