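import Pool.Agent.NPC.Sat

namespace Pool.Agent.H958R2

open Pool.Agent.NPC

/-- Exactly one of three booleans is true. -/
def one3 (a b c : Bool) : Bool := (a && !b && !c) || (!a && b && !c) || (!a && !b && c)

/-- Exactly-one-in-three satisfiability, with literals; `(true, v)` is `v`, `(false, v)` is
its negation. -/
def X13 (φ : List (Lit ℕ × Lit ℕ × Lit ℕ)) : Prop :=
  ∃ τ : ℕ → Bool, ∀ c ∈ φ,
    one3 (τ c.1.2 == c.1.1) (τ c.2.1.2 == c.2.1.1) (τ c.2.2.2 == c.2.2.1) = true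

/-- all variable numbers are smaller than three times the number of clauses -/
def Bd13 (φ : List (Lit ℕ × Lit ℕ × Lit ℕ)) : Prop :=
  ∀ c ∈ φ, c.1.2 < 3 * φ.length ∧ c.2.1.2 < 3 * φ.length ∧ c.2.2.2 < 3 * φ.length

end Pool.Agent.H958R2
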