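import Pool.Agent.H958R2.NLT.CoreGadget
import Pool.Agent.H958R2.NLT.Mat
import Pool.Agent.H958R2.NLT.X13Defs

/-!
# Labels of the vertices of the reduction
-/

namespace Pool.Agent.H958R2

open Pool.Agent.NPC

/-- Labels: kind, index, element, variable, sign. -/
abbrev Lab : Type := ℕ × ℕ × ℕ × ℕ × Bool

/-- The table of the lists inside a class. -/
noncomputable def TAB : List (ℕ × Bool × ℕ × ℕ) :=
  ((Finset.univ : Finset (Fin 3)).toList.map fun r => (2, false, r.1, r.1)) ++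
  ((((Finset.univ : Finset (Fin 7 × Fin 7)).filter fun p => fA p.2 p.1 = true).toList.map
    fun p => (3, false, p.1.1, p.2.1)) ++
  (((Finset.univ : Finset (Bool × Fin 3 × (Fin 7 × Fin 3) × (Fin 7 × Fin 3))).filter
    fun z => fE z.1 z.2.1 z.2.2.1.1 z.2.2.1.2 z.2.2.2.1 z.2.2.2.2 = true).toList.map
    fun z => (4 + z.2.1.1, z.1, 3 * z.2.2.1.1.1 + z.2.2.1.2.1, 3 * z.2.2.2.1.1 + z.2.2.2.2.1)))

theorem mem_TAB_var (a b : Fin 3) : (2, false, a.1, b.1) ∈ TAB ↔ a = b := by
  unfold TAB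
  rw [List.mem_append, List.mem_append, List.mem_map, List.mem_map, List.mem_map]
  constructor
  · rintro (⟨r, _, h⟩ | ⟨z, _, h⟩ | ⟨z, _, h⟩)
    · rw [Prod.mk.injEq, Prod.mk.injEq, Prod.mk.injEq] at h
      exact Fin.ext (h.2.2.1.symm.trans h.2.2.2)
    · exact absurd (congrArg Prod.fst h) (by simp)
    · exact absurd (congrArg Prod.fst h) (by simp only; omega)
  · rintro rfl
    exact Or.inl ⟨a, by simp, rfl⟩

theorem mem_TAB_hub (p q : Fin 7) : (3, false, p.1, q.1) ∈ TAB ↔ fA q p = true := by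
  unfold TAB
  rw [List.mem_append, List.mem_append, List.mem_map, List.mem_map, List.mem_map]
  constructor
  · rintro (⟨r, _, h⟩ | ⟨z, hz, h⟩ | ⟨z, _, h⟩)
    · exact absurd (congrArg Prod.fst h) (by simp)
    · rw [Prod.mk.injEq, Prod.mk.injEq, Prod.mk.injEq] at h
      rw [← Fin.ext h.2.2.1, ← Fin.ext h.2.2.2]
      simpa using hz
    · exact absurd (congrArg Prod.fst h) (by simp only; omega)
  · intro h
    exact Or.inr (Or.inl ⟨(p, q), by simpa using h, rfl⟩)

theorem mem_TAB_cov (b : Bool) (i : Fin 3) (p : Fin 7) (f : Fin 3) (q : Fin 7) (g : Fin 3) :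
    (4 + i.1, b, 3 * p.1 + f.1, 3 * q.1 + g.1) ∈ TAB ↔ fE b i p f q g = true := by
  unfold TAB
  rw [List.mem_append, List.mem_append, List.mem_map, List.mem_map, List.mem_map]
  constructor
  · rintro (⟨r, _, h⟩ | ⟨z, _, h⟩ | ⟨⟨b', i', ⟨p', f'⟩, ⟨q', g'⟩⟩, hz, h⟩)
    · exact absurd (congrArg Prod.fst h) (by simp only; omega)
    · exact absurd (congrArg Prod.fst h) (by simp only; omega)
    · rw [Prod.mk.injEq, Prod.mk.injEq, Prod.mk.injEq] at h
      obtain ⟨h1, h2, h3, h4⟩ := h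
      simp only at hz h1 h2 h3 h4
      have e1 : i' = i := Fin.ext (by omega)
      have e2 : p' = p := Fin.ext (by omega)
      have e3 : f' = f := Fin.ext (by omega)
      have e4 : q' = q := Fin.ext (by omega)
      have e5 : g' = g := Fin.ext (by omega)
      subst e1 e2 e3 e4 e5 h2
      simpa using hz
  · intro h
    exact Or.inr (Or.inr ⟨(b, i, (p, f), (q, g)), by simpa using h, rfl⟩)

/-- class of a label -/
def kl (a : Lab) : ℕ := 7 * a.2.1 + a.1

open Classical in
/-- core part of the matrix, on labels -/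
noncomputable def g0 (a v : Lab) : Bool :=
  bif decide (kl a = kl v) then decide ((a.1, a.2.2.2.2, a.2.2.1, v.2.2.1) ∈ TAB)
  else bif (decide (a.1 = 2) && decide (4 ≤ v.1) && decide (a.2.1 = v.2.2.2.1)) then
    decide (v.2.2.1 % 3 = a.2.2.1)
  else bif (decide (4 ≤ a.1) && decide (v.1 = 2) && decide (a.2.2.2.1 = v.2.1)) then
    !decide (v.2.2.1 = (a.2.2.1 + 1) % 3)
  else bif (decide (a.1 = 3) && decide (4 ≤ v.1) && decide (a.2.1 = v.2.1)) then
    decide (a.2.2.1 = v.2.2.1 / 3)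
  else bif (decide (4 ≤ a.1) && decide (v.1 = 3) && decide (a.2.1 = v.2.1)) then
    !decide (v.2.2.1 = a.2.2.1 / 3)
  else decide (kl a < kl v)

/-- the matrix, on labels -/
noncomputable def gl (a v : Lab) : Bool :=
  bif decide (a.1 = 0) then
    (bif decide (v.1 = 0) then decide (a.2.1 < v.2.1) else
      bif decide (v.1 = 1) then true else decide (a.2.1 ≤ kl v))
  else bif decide (a.1 = 1) then
    (bif decide (v.1 = 0) then false else bif decide (v.1 = 1) then
      (decide (v.2.1 = (a.2.1 + 1) % 3) || (decide (a.2.1 = v.2.1) && decide (a.2.2.1 < v.2.2.1)))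
      else true)
  else bif decide (v.1 = 0) then decide (kl a < v.2.1) else
    bif decide (v.1 = 1) then false else g0 a v

variable {N m M s : ℕ}

/-- the label of a vertex -/
def lab (lit : Fin m → Fin 3 → Bool × Fin N) : Fin M ⊕ ((Fin 3 × Fin s) ⊕ Core N m) → Lab
  | Sum.inl j => (0, j.1, 0, 0, false)
  | Sum.inr (Sum.inl (i, x)) => (1, i.1, x.1, 0, false)
  | Sum.inr (Sum.inr (Sum.inl (x, a))) => (2, x.1, a.1, 0, false)
  | Sum.inr (Sum.inr (Sum.inr (Sum.inl (c, p)))) => (3, c.1, p.1, 0, false)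
  | Sum.inr (Sum.inr (Sum.inr (Sum.inr (c, i, p, f)))) =>
      (4 + i.1, c.1, 3 * p.1 + f.1, (lit c i).2.1, (lit c i).1)

theorem lab_injective (lit : Fin m → Fin 3 → Bool × Fin N) :
    Function.Injective (lab (M := M) (s := s) lit) := by
  rintro (j | ⟨i, x⟩ | ⟨x, a⟩ | ⟨c, p⟩ | ⟨c, i, p, f⟩) (j' | ⟨i', x'⟩ | ⟨x', a'⟩ | ⟨c', p'⟩ |
    ⟨c', i', p', f'⟩) h <;> simp only [lab, Prod.mk.injEq] at h
  all_goals first
    | (exfalso; omega)
    | skip
  · rw [Fin.ext h.2.1]
  · rw [Fin.ext h.2.1, Fin.ext h.2.2.1]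
  · rw [Fin.ext h.2.1, Fin.ext h.2.2.1]
  · rw [Fin.ext h.2.1, Fin.ext h.2.2.1]
  · obtain ⟨h1, h2, h3, -, -⟩ := h
    have e1 : c = c' := Fin.ext h2
    have e2 : i = i' := Fin.ext (by omega)
    have e3 : p = p' := Fin.ext (by omega)
    have e4 : f = f' := Fin.ext (by omega)
    rw [e1, e2, e3, e4]

theorem kl_lab (lit : Fin m → Fin 3 → Bool × Fin N) (v : Core N m) :
    kl (lab (M := M) (s := s) lit (Sum.inr (Sum.inr v))) = kcore v := by
  rcases v with ⟨x, a⟩ | ⟨c, p⟩ | ⟨c, i, p, f⟩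
  · rfl
  · rfl
  · simp only [kl, lab, kcore]
    omega

theorem kind_core (lit : Fin m → Fin 3 → Bool × Fin N) (v : Core N m) :
    2 ≤ (lab (M := M) (s := s) lit (Sum.inr (Sum.inr v))).1 := by
  rcases v with ⟨x, a⟩ | ⟨c, p⟩ | ⟨c, i, p, f⟩ <;> simp only [lab] <;> omega

theorem fin3_succ (a f : Fin 3) : (a = f + 1) ↔ a.1 = (f.1 + 1) % 3 := by
  revert a f; decide

theorem g0_lab (lit : Fin m → Fin 3 → Bool × Fin N) (u v : Core N m) :
    g0 (lab (M := M) (s := s) lit (Sum.inr (Sum.inr u)))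
      (lab (M := M) (s := s) lit (Sum.inr (Sum.inr v))) = gcore lit u v := by
  unfold g0
  rw [kl_lab, kl_lab]
  rcases u with ⟨x, a⟩ | ⟨c, p⟩ | ⟨c, i, p, f⟩ <;> rcases v with ⟨y, b⟩ | ⟨d, q⟩ | ⟨d, j, q, g⟩
  · simp only [lab, kcore, gcore]
    by_cases hxy : x = y
    · subst hxy
      simp [mem_TAB_var]
    · have h1 : ¬ (7 * x.1 + 2 = 7 * y.1 + 2) := fun h => hxy (Fin.ext (by omega))
      have h2 : (7 * x.1 + 2 < 7 * y.1 + 2) ↔ x < y := by omega
      simp only [h1, h2, hxy, decide_false, cond_false, if_false]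
      rfl
  · simp only [lab, kcore, gcore]
    have h1 : ¬ (7 * x.1 + 2 = 7 * d.1 + 3) := by omega
    simp only [h1, decide_false, cond_false]
    rfl
  · simp only [lab, kcore, gcore]
    have h1 : ¬ (7 * x.1 + 2 = 7 * d.1 + 4 + j.1) := by omega
    have h2 : (3 * q.1 + g.1) % 3 = g.1 := by omega
    by_cases hx : (lit d j).2 = x
    · subst hx
      simp [h1, h2, Fin.ext_iff, eq_comm]
    · have h3 : ¬ (x.1 = (lit d j).2.1) := fun h => hx (Fin.ext h.symm)
      simp [h1, hx, h3]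
  · simp only [lab, kcore, gcore]
    have h1 : ¬ (7 * c.1 + 3 = 7 * y.1 + 2) := by omega
    simp only [h1, decide_false, cond_false]
    rfl
  · simp only [lab, kcore, gcore]
    by_cases hxy : c = d
    · subst hxy
      simp [mem_TAB_hub]
    · have h1 : ¬ (7 * c.1 + 3 = 7 * d.1 + 3) := fun h => hxy (Fin.ext (by omega))
      have h2 : (7 * c.1 + 3 < 7 * d.1 + 3) ↔ c < d := by omega
      simp only [h1, h2, hxy, decide_false, cond_false, if_false]
      rfl
  · simp only [lab, kcore, gcore]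
    have h1 : ¬ (7 * c.1 + 3 = 7 * d.1 + 4 + j.1) := by omega
    have h2 : (3 * q.1 + g.1) / 3 = q.1 := by omega
    by_cases hx : c = d
    · subst hx
      simp [h1, h2, Fin.ext_iff]
    · have h3 : ¬ (c.1 = d.1) := fun h => hx (Fin.ext h)
      simp [h1, hx, h3]
  · simp only [lab, kcore, gcore]
    have h1 : ¬ (7 * c.1 + 4 + i.1 = 7 * y.1 + 2) := by omega
    have h2 : (3 * p.1 + f.1 + 1) % 3 = (f.1 + 1) % 3 := by omega
    have h4 : ¬ (4 + i.1 = 2) := by omega
    by_cases hx : (lit c i).2 = y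
    · subst hx
      simp [h1, h2, h4, fin3_succ]
    · have h3 : ¬ ((lit c i).2.1 = y.1) := fun h => hx (Fin.ext h)
      simp [h1, hx, h3, h4]
  · simp only [lab, kcore, gcore]
    have h1 : ¬ (7 * c.1 + 4 + i.1 = 7 * d.1 + 3) := by omega
    have h2 : (3 * p.1 + f.1) / 3 = p.1 := by omega
    have h4 : ¬ (4 + i.1 = 2) := by omega
    have h5 : ¬ (4 + i.1 = 3) := by omega
    by_cases hx : c = d
    · subst hx
      simp [h1, h2, h4, h5, Fin.ext_iff]
    · have h3 : ¬ (c.1 = d.1) := fun h => hx (Fin.ext h)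
      simp [h1, hx, h3, h4, h5]
  · simp only [lab, kcore, gcore]
    have h4 : ¬ (4 + i.1 = 2) := by omega
    have h5 : ¬ (4 + i.1 = 3) := by omega
    have h6 : ¬ (4 + j.1 = 2) := by omega
    have h7 : ¬ (4 + j.1 = 3) := by omega
    by_cases hx : c = d ∧ i = j
    · obtain ⟨rfl, rfl⟩ := hx
      simp [mem_TAB_cov]
    · have h1 : ¬ (7 * c.1 + 4 + i.1 = 7 * d.1 + 4 + j.1) := fun h =>
        hx ⟨Fin.ext (by omega), Fin.ext (by omega)⟩
      rw [if_neg hx]
      simp [h1, h4, h5, h6, h7]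

theorem gl_lab (lit : Fin m → Fin 3 → Bool × Fin N)
    (u v : Fin M ⊕ ((Fin 3 × Fin s) ⊕ Core N m)) :
    gl (lab lit u) (lab lit v) = ext M s kcore (gcore lit) u v := by
  rcases u with i | ⟨i, x⟩ | u <;> rcases v with j | ⟨j, y⟩ | v
  · simp [gl, lab, ext]
  · simp [gl, lab, ext]
  · have h := kind_core (M := M) (s := s) lit v
    have h0 : ¬ ((lab (M := M) (s := s) lit (Sum.inr (Sum.inr v))).1 = 0) := by omega
    have h1 : ¬ ((lab (M := M) (s := s) lit (Sum.inr (Sum.inr v))).1 = 1) := by omega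
    unfold gl
    rw [kl_lab]
    simp only [h0, h1, decide_false, cond_false, ext]
    simp [lab]
  · simp [gl, lab, ext]
  · have h1 := fin3_succ j i
    have h2 : (i = j) ↔ i.1 = j.1 := Fin.ext_iff
    simp only [gl, lab, ext, h1, h2]
    rfl
  · have h := kind_core (M := M) (s := s) lit v
    have h0 : ¬ ((lab (M := M) (s := s) lit (Sum.inr (Sum.inr v))).1 = 0) := by omega
    have h1 : ¬ ((lab (M := M) (s := s) lit (Sum.inr (Sum.inr v))).1 = 1) := by omega
    unfold gl
    simp only [h0, h1, decide_false, cond_false, ext]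
    simp [lab]
  · have h := kind_core (M := M) (s := s) lit u
    have h0 : ¬ ((lab (M := M) (s := s) lit (Sum.inr (Sum.inr u))).1 = 0) := by omega
    have h1 : ¬ ((lab (M := M) (s := s) lit (Sum.inr (Sum.inr u))).1 = 1) := by omega
    unfold gl
    rw [kl_lab]
    simp only [h0, h1, decide_false, cond_false, ext]
    simp [lab]
  · have h := kind_core (M := M) (s := s) lit u
    have h0 : ¬ ((lab (M := M) (s := s) lit (Sum.inr (Sum.inr u))).1 = 0) := by omega
    have h1 : ¬ ((lab (M := M) (s := s) lit (Sum.inr (Sum.inr u))).1 = 1) := by omega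
    unfold gl
    simp only [h0, h1, decide_false, cond_false, ext]
    simp [lab]
  · have h := kind_core (M := M) (s := s) lit u
    have h0 : ¬ ((lab (M := M) (s := s) lit (Sum.inr (Sum.inr u))).1 = 0) := by omega
    have h1 : ¬ ((lab (M := M) (s := s) lit (Sum.inr (Sum.inr u))).1 = 1) := by omega
    have h' := kind_core (M := M) (s := s) lit v
    have h0' : ¬ ((lab (M := M) (s := s) lit (Sum.inr (Sum.inr v))).1 = 0) := by omega
    have h1' : ¬ ((lab (M := M) (s := s) lit (Sum.inr (Sum.inr v))).1 = 1) := by omega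
    unfold gl
    simp only [h0, h1, h0', h1', decide_false, cond_false, ext]
    exact g0_lab lit u v

end Pool.Agent.H958R2
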