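import Pool.Agent.H958R2.NLT.Mat
import Pool.Agent.H671R2.PolyAuto
import Pool.Agent.NPC.Dec

/-!
# NLT is in NP
-/

namespace Pool.Agent.NPC.H958NLT

open Pool.Agent.H958R2

/-- entry of a matrix given by rows -/
def ent (M : List (List Bool)) (i j : ℕ) : Bool := (M.getD i []).getD j false

theorem length_le_sz {α : Type} [TEnc α] (l : List α) : l.length ≤ sz l := by
  induction l with
  | nil => simp
  | cons a l ih =>
    have := sz_pos a
    simp only [List.length_cons, sz_list_cons]
    omega

theorem eq_ofFn {M : List (List Bool)} (h : ∀ r ∈ M, r.length = M.length) :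
    M = List.ofFn fun i : Fin M.length => List.ofFn fun j : Fin M.length => ent M i j := by
  apply List.ext_getElem
  · simp
  · intro i h1 h2
    simp only [List.getElem_ofFn]
    have h3 := h M[i] (List.getElem_mem h1)
    apply List.ext_getElem
    · simpa using h3
    · intro j h4 h5
      simp only [List.getElem_ofFn, ent]
      rw [List.getD_eq_getElem _ _ h1, List.getD_eq_getElem _ _ h4]

theorem nlt_iff (M : List (List Bool)) : NLT M ↔ (∀ r ∈ M, r.length = M.length) ∧
    ∃ σ : Fin M.length → Fin M.length, Valid (fun i j : Fin M.length => ent M i j) σ := by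
  constructor
  · intro h
    have h1 : ∀ r ∈ M, r.length = M.length := by
      obtain ⟨n, N, rfl, -⟩ := h
      intro r hr
      unfold rows at hr ⊢
      rw [List.mem_ofFn] at hr
      obtain ⟨i, rfl⟩ := hr
      simp
    refine ⟨h1, ?_⟩
    rw [eq_ofFn h1] at h
    exact (nlt_ofFn _).1 h
  · rintro ⟨h1, h⟩
    rw [eq_ofFn h1]
    exact (nlt_ofFn _).2 h

/-- The verifier. -/
def chk (p : List (List Bool) × List ℕ) : Bool :=
  (p.1.all fun r => decide (r.length = p.1.length)) &&
  (List.range p.1.length).all fun v =>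
    decide (p.2.getD v 0 < p.1.length) && (!(ent p.1 (p.2.getD v 0) v) &&
    (List.range p.1.length).all fun u => decide (u = v) ||
      xor (ent p.1 (p.2.getD u 0) v) (ent p.1 (p.2.getD v 0) u))

theorem poly_chk : Poly chk := by
  unfold chk ent
  have h : ∀ {α : Type} [TEnc α] {f : α → List (List Bool)}, Poly f →
      Poly (fun a => List.range (f a).length) := fun hf => Poly.range_length hf
  refine Poly.and (by fun_prop) ?_
  refine Poly.all (h (Poly.fst Poly.id)) ?_
  refine Poly.and (by fun_prop) (Poly.and (by fun_prop) ?_)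
  refine Poly.all (h (Poly.fst (Poly.fst Poly.id))) ?_
  fun_prop

theorem chk_iff (M : List (List Bool)) (w : List ℕ) : chk (M, w) = true ↔
    (∀ r ∈ M, r.length = M.length) ∧ ∀ v < M.length, w.getD v 0 < M.length ∧
      ent M (w.getD v 0) v = false ∧ ∀ u < M.length, u = v ∨
        ent M (w.getD u 0) v ≠ ent M (w.getD v 0) u := by
  unfold chk
  simp only [Bool.and_eq_true, List.all_eq_true, decide_eq_true_eq, List.mem_range,
    Bool.not_eq_true', Bool.or_eq_true, bne_iff_ne, ne_eq, Bool.xor_iff_ne]

theorem inNPP_NLT : InNPP NLT := by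
  refine inNPP_of (β := List ℕ) poly_chk
    (Polynomial.X * (Polynomial.C 4 * Polynomial.X + Polynomial.C 2) + Polynomial.C 1) ?_
  intro M
  rw [nlt_iff]
  constructor
  · rintro ⟨h1, σ, hσ⟩
    refine ⟨List.ofFn fun i => (σ i).1, ?_, ?_⟩
    · have h2 : ∀ a ∈ List.ofFn (fun i => (σ i).1), sz a ≤ 4 * sz M + 1 := by
        intro a ha
        rw [List.mem_ofFn] at ha
        obtain ⟨i, rfl⟩ := ha
        have h3 := sz_nat_le (σ i).1
        have h4 : Nat.size (σ i).1 ≤ (σ i).1 := by
          rw [Nat.size_le]
          exact Nat.lt_two_pow_self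
        have h5 := (σ i).2
        have h6 : M.length ≤ sz M := length_le_sz M
        omega
      have h7 := sz_le_length_mul _ _ h2
      have h6 : M.length ≤ sz M := length_le_sz M
      rw [List.length_ofFn] at h7
      simp only [Polynomial.eval_add, Polynomial.eval_mul, Polynomial.eval_X, Polynomial.eval_C]
      refine h7.trans ?_
      gcongr
    · rw [chk_iff]
      refine ⟨h1, fun v hv => ?_⟩
      have hget : ∀ (k : ℕ) (hk : k < M.length),
          (List.ofFn fun i => (σ i).1).getD k 0 = (σ ⟨k, hk⟩).1 := by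
        intro k hk
        rw [List.getD_eq_getElem _ _ (by simpa using hk)]
        simp
      rw [hget v hv]
      refine ⟨(σ ⟨v, hv⟩).2, hσ.1 ⟨v, hv⟩, fun u hu => ?_⟩
      rw [hget u hu]
      by_cases huv : u = v
      · exact Or.inl huv
      · exact Or.inr (hσ.2 ⟨u, hu⟩ ⟨v, hv⟩ (fun h => huv (by simpa using h)))
  · rintro ⟨w, -, hw⟩
    rw [chk_iff] at hw
    obtain ⟨h1, h2⟩ := hw
    refine ⟨h1, fun v => ⟨w.getD v 0, (h2 v v.2).1⟩, ?_, ?_⟩
    · intro v
      exact (h2 v v.2).2.1
    · intro u v hne
      rcases (h2 v v.2).2.2 u u.2 with h | h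
      · exact absurd (Fin.ext h) hne
      · exact h

end Pool.Agent.NPC.H958NLT
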