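import Pool.Agent.H958R2.NLT.Red
import Pool.Agent.H671R2.PolyAuto

/-!
# The reduction is computable in polynomial time
-/

namespace Pool.Agent.NPC.H958NLT

open Pool.Agent.H958R2

theorem poly_kl {α : Type} [TEnc α] {f : α → Lab} (hf : Poly f) : Poly (fun a => kl (f a)) := by
  unfold kl
  fun_prop

theorem poly_g0 {α : Type} [TEnc α] {f g : α → Lab} (hf : Poly f) (hg : Poly g) :
    Poly (fun a => g0 (f a) (g a)) := by
  have h1 := poly_kl hf
  have h2 := poly_kl hg
  have h3 : Poly (fun _ : α => TAB) := Poly.const _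
  unfold g0
  generalize TAB = tab at *
  fun_prop

theorem poly_gl {α : Type} [TEnc α] {f g : α → Lab} (hf : Poly f) (hg : Poly g) :
    Poly (fun a => gl (f a) (g a)) := by
  have h1 := poly_kl hf
  have h2 := poly_kl hg
  have h3 := poly_g0 hf hg
  unfold gl
  fun_prop

theorem poly_covl {α : Type} [TEnc α] {f : α → ℕ} {g : α → Lit ℕ × Lit ℕ × Lit ℕ}
    (hf : Poly f) (hg : Poly g) : Poly (fun a => covl (f a) (g a)) := by
  have h3 : Poly (fun _ : α => List.range 21) := Poly.const _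
  unfold covl
  generalize List.range 21 = l at *
  fun_prop

theorem poly_vl : Poly vl := by
  have hl : UPoly (fun φ : List (Lit ℕ × Lit ℕ × Lit ℕ) => φ.length) := UPoly.length Poly.id
  have h1 : Poly (fun φ : List (Lit ℕ × Lit ℕ × Lit ℕ) => List.range (nM φ.length)) :=
    UPoly.range (((UPoly.const 21).mul hl).add (UPoly.const 9))
  have h2 : Poly (fun φ : List (Lit ℕ × Lit ℕ × Lit ℕ) => List.range (nS φ.length)) :=
    UPoly.range (((UPoly.const 100).mul hl).add (UPoly.const 10))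
  have h3 : Poly (fun φ : List (Lit ℕ × Lit ℕ × Lit ℕ) => List.range (3 * φ.length)) :=
    UPoly.range ((UPoly.const 3).mul hl)
  have h4 : Poly (fun φ : List (Lit ℕ × Lit ℕ × Lit ℕ) => List.range φ.length) :=
    UPoly.range hl
  have h5 : Poly (fun _ : List (Lit ℕ × Lit ℕ × Lit ℕ) => List.range 3) := Poly.const _
  have h7 : Poly (fun _ : List (Lit ℕ × Lit ℕ × Lit ℕ) => List.range 7) := Poly.const _
  have h6 : Poly (fun φ : List (Lit ℕ × Lit ℕ × Lit ℕ) =>
      φ.zipIdx.flatMap (fun p => covl p.2 p.1)) :=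
    Poly.flatMap (F := fun _ (p : (Lit ℕ × Lit ℕ × Lit ℕ) × ℕ) => covl p.2 p.1)
      (Poly.zipIdx Poly.id) (poly_covl (Poly.snd (Poly.snd Poly.id)) (Poly.fst (Poly.snd Poly.id)))
  unfold vl
  fun_prop

theorem poly_red : Poly red := by
  have hv := poly_vl
  unfold red
  exact Poly.map (F := fun φ a => (vl φ).map (gl a)) hv
    (Poly.map (F := fun (p : List (Lit ℕ × Lit ℕ × Lit ℕ) × Lab) b => gl p.2 b)
      (hv.comp (Poly.fst Poly.id)) (poly_gl (Poly.snd (Poly.fst Poly.id)) (Poly.snd Poly.id)))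

/-- NLT is NP-hard. -/
theorem hardI_NLT (h : HardPr Bd13 X13) : HardI NLT :=
  (h.trans (Pr' := fun _ => True) poly_red (fun _ _ => trivial) red_iff).toHardI

end Pool.Agent.NPC.H958NLT
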