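import Pool.Agent.H958R2.NLT.Lab

/-!
# The reduction from exactly-one-in-three satisfiability
-/

namespace Pool.Agent.H958R2

open Pool.Agent.NPC

/-- labels of the three covers of a clause -/
def covl (c : ℕ) (cl : Lit ℕ × Lit ℕ × Lit ℕ) : List Lab :=
  (List.range 21).map (fun r => ((4, c, r, cl.1.2, cl.1.1) : Lab)) ++
  ((List.range 21).map (fun r => ((5, c, r, cl.2.1.2, cl.2.1.1) : Lab)) ++
  (List.range 21).map (fun r => ((6, c, r, cl.2.2.2, cl.2.2.1) : Lab)))

/-- number of markers -/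
def nM (n : ℕ) : ℕ := 21 * n + 9

/-- size of the parts of the separating block -/
def nS (n : ℕ) : ℕ := 100 * n + 10

/-- the list of all labels -/
def vl (φ : List (Lit ℕ × Lit ℕ × Lit ℕ)) : List Lab :=
  (List.range (nM φ.length)).map (fun j => ((0, j, 0, 0, false) : Lab)) ++
  (((List.range 3) ×ˢ (List.range (nS φ.length))).map (fun p => ((1, p.1, p.2, 0, false) : Lab)) ++
  (((List.range (3 * φ.length)) ×ˢ (List.range 3)).map (fun p => ((2, p.1, p.2, 0, false) : Lab)) ++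
  (((List.range φ.length) ×ˢ (List.range 7)).map (fun p => ((3, p.1, p.2, 0, false) : Lab)) ++
  φ.zipIdx.flatMap (fun p => covl p.2 p.1))))

/-- the reduction -/
noncomputable def red (φ : List (Lit ℕ × Lit ℕ × Lit ℕ)) : List (List Bool) :=
  (vl φ).map fun a => (vl φ).map (gl a)

/-- the literals of a clause -/
def lits (cl : Lit ℕ × Lit ℕ × Lit ℕ) : Fin 3 → Lit ℕ := ![cl.1, cl.2.1, cl.2.2]

theorem lits_lt {φ : List (Lit ℕ × Lit ℕ × Lit ℕ)} (h : Bd13 φ) (c : Fin φ.length) (i : Fin 3) :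
    (lits φ[c] i).2 < 3 * φ.length := by
  obtain ⟨h1, h2, h3⟩ := h φ[c] (List.getElem_mem _)
  fin_cases i
  · exact h1
  · exact h2
  · exact h3

/-- the literals, typed -/
def litF (φ : List (Lit ℕ × Lit ℕ × Lit ℕ)) (h : Bd13 φ) (c : Fin φ.length) (i : Fin 3) :
    Bool × Fin (3 * φ.length) := ((lits φ[c] i).1, ⟨(lits φ[c] i).2, lits_lt h c i⟩)

theorem one3_iff : ∀ a b c : Bool, one3 a b c = true ↔ ∃ e : Fin 3,
    a = decide (0 = e) ∧ b = decide (1 = e) ∧ c = decide (2 = e) := by decide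

theorem x13_iff (φ : List (Lit ℕ × Lit ℕ × Lit ℕ)) (h : Bd13 φ) :
    X13 φ ↔ ∃ α : Fin (3 * φ.length) → Bool, ∀ c, ∃ e : Fin 3, ∀ i,
      (α (litF φ h c i).2 == (litF φ h c i).1) = decide (i = e) := by
  constructor
  · rintro ⟨τ, hτ⟩
    refine ⟨fun x => τ x.1, fun c => ?_⟩
    obtain ⟨e, h1, h2, h3⟩ := (one3_iff _ _ _).1 (hτ φ[c] (List.getElem_mem _))
    refine ⟨e, fun i => ?_⟩
    fin_cases i
    · exact h1
    · exact h2
    · exact h3
  · rintro ⟨α, hα⟩
    refine ⟨fun n => if hn : n < 3 * φ.length then α ⟨n, hn⟩ else false, ?_⟩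
    intro cl hcl
    obtain ⟨c, hc, rfl⟩ := List.getElem_of_mem hcl
    obtain ⟨e, he⟩ := hα ⟨c, hc⟩
    rw [one3_iff]
    obtain ⟨b1, b2, b3⟩ := h _ hcl
    refine ⟨e, ?_, ?_, ?_⟩
    · have := he 0
      simp only [litF, lits] at this
      simp only [dif_pos b1]
      exact this
    · have := he 1
      simp only [litF, lits] at this
      simp only [dif_pos b2]
      exact this
    · have := he 2
      simp only [litF, lits] at this
      simp only [dif_pos b3]
      exact this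

theorem length_covl (c : ℕ) (cl : Lit ℕ × Lit ℕ × Lit ℕ) : (covl c cl).length = 63 := by
  simp [covl]

theorem length_vl (φ : List (Lit ℕ × Lit ℕ × Lit ℕ)) :
    (vl φ).length = Fintype.card (Fin (nM φ.length) ⊕ ((Fin 3 × Fin (nS φ.length)) ⊕
      Core (3 * φ.length) φ.length)) := by
  have h1 : (φ.zipIdx.flatMap (fun p => covl p.2 p.1)).length = 63 * φ.length := by
    rw [List.length_flatMap]
    simp only [length_covl]
    simp
    ring
  unfold vl
  simp only [List.length_append, List.length_map, List.length_product, List.length_range, h1,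
    Fintype.card_sum, Fintype.card_prod, Fintype.card_fin]
  ring

theorem lab_mem_vl (φ : List (Lit ℕ × Lit ℕ × Lit ℕ)) (h : Bd13 φ)
    (v : Fin (nM φ.length) ⊕ ((Fin 3 × Fin (nS φ.length)) ⊕ Core (3 * φ.length) φ.length)) :
    lab (litF φ h) v ∈ vl φ := by
  unfold vl
  simp only [List.mem_append, List.mem_map]
  rcases v with j | ⟨i, x⟩ | ⟨x, a⟩ | ⟨c, p⟩ | ⟨c, i, p, f⟩
  · exact Or.inl ⟨j.1, List.mem_range.2 j.2, rfl⟩
  · exact Or.inr (Or.inl ⟨(i.1, x.1), List.mem_product.2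
      ⟨List.mem_range.2 i.2, List.mem_range.2 x.2⟩, rfl⟩)
  · exact Or.inr (Or.inr (Or.inl ⟨(x.1, a.1), List.mem_product.2
      ⟨List.mem_range.2 x.2, List.mem_range.2 a.2⟩, rfl⟩))
  · exact Or.inr (Or.inr (Or.inr (Or.inl ⟨(c.1, p.1), List.mem_product.2
      ⟨List.mem_range.2 c.2, List.mem_range.2 p.2⟩, rfl⟩)))
  · refine Or.inr (Or.inr (Or.inr (Or.inr ?_)))
    rw [List.mem_flatMap]
    refine ⟨(φ[c], c.1), ?_, ?_⟩
    · rw [List.mem_zipIdx_iff_getElem?]
      simp
    · unfold covl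
      simp only [List.mem_append, List.mem_map]
      have hr : 3 * p.1 + f.1 < 21 := by omega
      fin_cases i
      · exact Or.inl ⟨3 * p.1 + f.1, List.mem_range.2 hr, rfl⟩
      · exact Or.inr (Or.inl ⟨3 * p.1 + f.1, List.mem_range.2 hr, rfl⟩)
      · exact Or.inr (Or.inr ⟨3 * p.1 + f.1, List.mem_range.2 hr, rfl⟩)

theorem kcore_lt {N m : ℕ} (h : N = 3 * m) (v : Core N m) : kcore v + 1 < nM m := by
  unfold nM
  rcases v with ⟨x, a⟩ | ⟨c, p⟩ | ⟨c, i, p, f⟩ <;> simp only [kcore] <;> omega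

theorem red_iff (φ : List (Lit ℕ × Lit ℕ × Lit ℕ)) (h : Bd13 φ) : X13 φ ↔ NLT (red φ) := by
  unfold red
  rw [nlt_list (vl φ) (lab (litF φ h)) (lab_injective _) (lab_mem_vl φ h) (length_vl φ) gl]
  have h1 : (fun a b => gl (lab (litF φ h) a) (lab (litF φ h) b)) =
      ext (nM φ.length) (nS φ.length) kcore (gcore (litF φ h)) := by
    funext a b
    exact gl_lab _ a b
  rw [h1, ext_valid_iff, core_iff, x13_iff φ h]
  · simp only [Fintype.card_sum, Fintype.card_prod, Fintype.card_fin, nS]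
    omega
  · simp only [Fintype.card_sum, Fintype.card_prod, Fintype.card_fin, nM, nS]
    omega
  · exact fun v => kcore_lt rfl v

end Pool.Agent.H958R2
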