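import Pool.Agent.H958R2.NLT.X13Defs
import Pool.Agent.H671R2.PolyAuto

/-!
# Exactly-one-in-three satisfiability is hard
-/

namespace Pool.Agent.NPC.H958NLT

open Pool.Agent.H958R2

/-- Variables: old ones, and four new ones for each clause. -/
abbrev XV : Type := ℕ ⊕ (ℕ × ℕ)

/-- typed version of `X13` -/
def X13V (V : Type) (φ : List (Lit V × Lit V × Lit V)) : Prop :=
  ∃ τ : V → Bool, ∀ c ∈ φ,
    one3 (τ c.1.2 == c.1.1) (τ c.2.1.2 == c.2.1.1) (τ c.2.2.2 == c.2.2.1) = true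

theorem x13_ren {V : Type} (φ : List (Lit V × Lit V × Lit V)) :
    X13V V φ ↔ X13 (ren3 φ) := by
  classical
  constructor
  · rintro ⟨τ, hτ⟩
    refine ⟨fun n => match (vars3 φ)[n]? with
      | none => false
      | some v => τ v, ?_⟩
    intro c hc
    unfold ren3 at hc
    rw [List.mem_map] at hc
    obtain ⟨d, hd, rfl⟩ := hc
    obtain ⟨h1, h2, h3⟩ := mem_vars3 hd
    simp only [getElem?_index h1, getElem?_index h2, getElem?_index h3]
    exact hτ d hd
  · rintro ⟨τ, hτ⟩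
    refine ⟨fun v => τ (index (vars3 φ) v), ?_⟩
    intro c hc
    exact hτ _ (List.mem_map.2 ⟨c, hc, rfl⟩)

theorem index_lt {V : Type} {l : List V} {v : V} (h : v ∈ l) : index l v < l.length := by
  have h1 := getElem?_index h
  by_contra hn
  rw [List.getElem?_eq_none (by omega)] at h1
  simp at h1

theorem length_vars3 {V : Type} (φ : List (Lit V × Lit V × Lit V)) :
    (vars3 φ).length = 3 * φ.length := by
  unfold vars3
  rw [List.length_flatMap]
  simp
  ring

theorem bd_ren {V : Type} (φ : List (Lit V × Lit V × Lit V)) : Bd13 (ren3 φ) := by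
  intro c hc
  have hlen : (ren3 φ).length = φ.length := by simp [ren3]
  rw [hlen, ← length_vars3]
  unfold ren3 at hc
  rw [List.mem_map] at hc
  obtain ⟨d, hd, rfl⟩ := hc
  obtain ⟨h1, h2, h3⟩ := mem_vars3 hd
  exact ⟨index_lt h1, index_lt h2, index_lt h3⟩

/-- the three one-in-three clauses of a clause `c` with number `n` -/
def xcl (c : Lit ℕ × Lit ℕ × Lit ℕ) (n : ℕ) : List (Lit XV × Lit XV × Lit XV) :=
  [((!c.1.1, Sum.inl c.1.2), (true, Sum.inr (n, 0)), (true, Sum.inr (n, 1))),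
   ((c.2.1.1, Sum.inl c.2.1.2), (true, Sum.inr (n, 1)), (true, Sum.inr (n, 2))),
   ((!c.2.2.1, Sum.inl c.2.2.2), (true, Sum.inr (n, 2)), (true, Sum.inr (n, 3)))]

/-- the formula -/
def xred (φ : List (Lit ℕ × Lit ℕ × Lit ℕ)) : List (Lit XV × Lit XV × Lit XV) :=
  φ.zipIdx.flatMap (fun p => xcl p.1 p.2)

theorem x_gadget : ∀ x y z : Bool, (x = true ∨ y = true ∨ z = true) ↔
    ∃ a b c d : Bool, one3 (!x) a b = true ∧ one3 y b c = true ∧ one3 (!z) c d = true := by
  decide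

theorem not_beq (a b : Bool) : (a == !b) = !(a == b) := by cases a <;> cases b <;> rfl

theorem xred_sat (φ : List (Lit ℕ × Lit ℕ × Lit ℕ)) : SAT3 φ ↔ X13V XV (xred φ) := by
  constructor
  · rintro ⟨τ, hτ⟩
    have h1 : ∀ n : ℕ, ∃ g : ℕ → Bool, ∀ c, φ[n]? = some c →
        one3 (!(τ c.1.2 == c.1.1)) (g 0) (g 1) = true ∧ one3 (τ c.2.1.2 == c.2.1.1) (g 1) (g 2) = true ∧
        one3 (!(τ c.2.2.2 == c.2.2.1)) (g 2) (g 3) = true := by
      intro n
      cases hn : φ[n]? with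
      | none => exact ⟨fun _ => false, fun c hc => by simp at hc⟩
      | some c =>
        have h2 := hτ c (List.mem_of_getElem? hn)
        have h3 : (τ c.1.2 == c.1.1) = true ∨ (τ c.2.1.2 == c.2.1.1) = true ∨
            (τ c.2.2.2 == c.2.2.1) = true := by simpa using h2
        obtain ⟨a, b, d, e, h4, h5, h6⟩ := (x_gadget _ _ _).1 h3
        refine ⟨fun k => if k = 0 then a else if k = 1 then b else if k = 2 then d else e, ?_⟩
        intro c' hc'
        rw [Option.some.injEq] at hc'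
        subst hc'
        exact ⟨h4, h5, h6⟩
    choose g hg using h1
    refine ⟨Sum.elim τ (fun p => g p.1 p.2), ?_⟩
    intro cl hcl
    unfold xred at hcl
    rw [List.mem_flatMap] at hcl
    obtain ⟨⟨c, n⟩, hcn, hcl⟩ := hcl
    rw [List.mem_zipIdx_iff_getElem?] at hcn
    obtain ⟨h4, h5, h6⟩ := hg n c hcn
    simp only [xcl, List.mem_cons, List.not_mem_nil, or_false] at hcl
    rcases hcl with rfl | rfl | rfl
    · simpa [not_beq] using h4
    · simpa using h5
    · simpa [not_beq] using h6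
  · rintro ⟨σ, hσ⟩
    refine ⟨fun n => σ (Sum.inl n), ?_⟩
    intro c hc
    obtain ⟨n, hn, hnc⟩ := List.getElem_of_mem hc
    have hmem : ∀ d ∈ xcl c n, d ∈ xred φ := by
      intro d hd
      unfold xred
      rw [List.mem_flatMap]
      refine ⟨(c, n), ?_, hd⟩
      rw [List.mem_zipIdx_iff_getElem?]
      simp only
      rw [List.getElem?_eq_getElem hn, hnc]
    have h1 := hσ _ (hmem ((!c.1.1, Sum.inl c.1.2), (true, Sum.inr (n, 0)), (true, Sum.inr (n, 1)))
      (by simp [xcl]))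
    have h2 := hσ _ (hmem ((c.2.1.1, Sum.inl c.2.1.2), (true, Sum.inr (n, 1)),
      (true, Sum.inr (n, 2))) (by simp [xcl]))
    have h3 := hσ _ (hmem ((!c.2.2.1, Sum.inl c.2.2.2), (true, Sum.inr (n, 2)),
      (true, Sum.inr (n, 3))) (by simp [xcl]))
    simp only [not_beq] at h1 h2 h3
    have h4 := (x_gadget (σ (Sum.inl c.1.2) == c.1.1) (σ (Sum.inl c.2.1.2) == c.2.1.1)
      (σ (Sum.inl c.2.2.2) == c.2.2.1)).2 ⟨_, _, _, _, h1, h2, h3⟩
    simpa using h4

theorem xred_poly : Poly xred := by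
  refine Poly.flatMap (F := fun _ (p : (Lit ℕ × Lit ℕ × Lit ℕ) × ℕ) => xcl p.1 p.2)
    (Poly.zipIdx Poly.id) ?_
  have f1 : Poly (fun x : List (Lit ℕ × Lit ℕ × Lit ℕ) × ((Lit ℕ × Lit ℕ × Lit ℕ) × ℕ) => x.2.2) :=
    Poly.snd (Poly.snd Poly.id)
  have f2 : Poly (fun x : List (Lit ℕ × Lit ℕ × Lit ℕ) × ((Lit ℕ × Lit ℕ × Lit ℕ) × ℕ) => x.2.1) :=
    Poly.fst (Poly.snd Poly.id)
  unfold xcl
  fun_prop

theorem hardPr_X13 : HardPr Bd13 X13 :=
  hardI_SAT3.toHardPr.trans (f := fun φ => ren3 (xred φ)) (Poly.comp (g := ren3 (V := XV)) ren3_poly xred_poly)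
    (fun _ _ => bd_ren _) (fun φ _ => (xred_sat φ).trans (x13_ren _))

end Pool.Agent.NPC.H958NLT
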